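import Mathlib
import Pool.Agent.H68.Clock.Final

/-!
No constant-factor deterministic Bayesian clock auction exists for general downward-closed
feasibility constraints, even for finitely supported value distributions.
-/

open Pool.Agent.H68.Clock

/-- For every `c` there are `n` buyers, a downward-closed feasibility constraint `F` and
independent values `v i`, each with finitely many possible values (at most `36 |c| + 2` many),
such that no deterministic Bayesian clock auction `A` is a `c`-approximation: the expected
optimal welfare exceeds `c` times the expected welfare of `A`. -/
theorem Pool.Agent.Results.MP_9cf523_lc.Bayesian.result :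
    ∀ c : ℝ, ∃ (n : ℕ) (F : Set (Finset (Fin n))) (D : Prior n),
      (∅ ∈ F ∧ ∀ S ∈ F, ∀ T ⊆ S, T ∈ F) ∧
      (∀ i, ((D.supp i).card : ℝ) ≤ 36 * |c| + 2) ∧
      ∀ A : ClockAuction F, c * D.expect A.welfare < D.expect (optWelfare F) :=
  bayesian
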