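import Mathlib
import Pool.Agent.H68.Clock.Final

/-!
No constant-factor randomized prior-free clock auction exists for general downward-closed
feasibility constraints.
-/

open Pool.Agent.H68.Clock MeasureTheory

universe u

/-- For every `c` there are `n` buyers and a downward-closed feasibility constraint `F` such that
every randomized prior-free clock auction (a random clock auction `A w`, with `w` in a
probability space, whose welfare is measurable on every profile) has, on some profile `v` of
nonnegative values, expected welfare such that `c` times it is below the optimal welfare. -/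
theorem Pool.Agent.Results.MP_9cf523_lc.Randomized.result :
    ∀ c : ℝ, ∃ (n : ℕ) (F : Set (Finset (Fin n))),
      (∅ ∈ F ∧ ∀ S ∈ F, ∀ T ⊆ S, T ∈ F) ∧
      ∀ (Ω : Type u) [MeasurableSpace Ω] (P : Measure Ω) [IsProbabilityMeasure P]
        (A : Ω → ClockAuction F),
        (∀ v : Fin n → ℝ, (∀ i, 0 ≤ v i) → Measurable fun w => (A w).welfare v) →
        ∃ v : Fin n → ℝ, (∀ i, 0 ≤ v i) ∧ c * ∫ w, (A w).welfare v ∂P < optWelfare F v :=
  randomized
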